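import Mathlib

/-!
MP_542d22_co, arc version for simple digraphs: the Markov chain step (helper87, after the
proof of helper62).

`q w z` are the rates of a continuous time Markov chain on the finite set `V`,
`Lap q f y = ∑ z, q y z * (f y - f z)`, `genMat q v0 = L + 1 e_{v0}ᵀ`, `Z` its inverse.
`Z w w - Z z w = π(w) E_z[T_w]` and `π(w) = Z v0 w`.

Main theorem `key_theorem`: there is an ordered pair `(u, v)` (the one with the smallest expected
hitting time) with `q u v > 0` such that for every cut `X` with `u ∈ X`, `v ∉ X`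
`1 ≤ ∑_{w ∈ X, z ∉ X} q w z (Z w w - Z z w) + q u v (Z u u - Z v u)`.
-/

namespace MP_542d22_q2

open Finset

set_option linter.unusedSectionVars false

variable {V : Type*} [Fintype V] [DecidableEq V]

/-- The (negative) generator of the Markov chain with rates `q`. -/
def Lap (q : V → V → ℝ) (f : V → ℝ) (y : V) : ℝ := ∑ z, q y z * (f y - f z)

/-- Irreducibility: no nonempty proper set is closed. -/
def Irr (q : V → V → ℝ) : Prop :=
  ∀ S : Finset V, S.Nonempty → S ≠ univ → ∃ a ∈ S, ∃ b, b ∉ S ∧ 0 < q a b

/-- The matrix `L + 1 e_{v0}ᵀ`. -/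
def genMat (q : V → V → ℝ) (v0 : V) : Matrix V V ℝ :=
  Matrix.of fun a b => (if a = b then ∑ c, q a c else 0) - q a b + (if b = v0 then 1 else 0)

theorem Lap_add (q : V → V → ℝ) (f g : V → ℝ) (y : V) :
    Lap q (fun x => f x + g x) y = Lap q f y + Lap q g y := by
  unfold Lap
  rw [← sum_add_distrib]
  exact sum_congr rfl fun z _ => by ring

theorem Lap_sub (q : V → V → ℝ) (f g : V → ℝ) (y : V) :
    Lap q (fun x => f x - g x) y = Lap q f y - Lap q g y := by
  unfold Lap
  rw [← sum_sub_distrib]
  exact sum_congr rfl fun z _ => by ring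

theorem Lap_smul (q : V → V → ℝ) (c : ℝ) (f : V → ℝ) (y : V) :
    Lap q (fun x => c * f x) y = c * Lap q f y := by
  unfold Lap
  rw [mul_sum]
  exact sum_congr rfl fun z _ => by ring

theorem Lap_mul_const (q : V → V → ℝ) (c : ℝ) (f : V → ℝ) (y : V) :
    Lap q (fun x => f x * c) y = Lap q f y * c := by
  unfold Lap
  rw [sum_mul]
  exact sum_congr rfl fun z _ => by ring

theorem Lap_neg (q : V → V → ℝ) (f : V → ℝ) (y : V) :
    Lap q (fun x => - f x) y = - Lap q f y := by
  unfold Lap
  rw [← sum_neg_distrib]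
  exact sum_congr rfl fun z _ => by ring

theorem Lap_const (q : V → V → ℝ) (c : ℝ) (y : V) :
    Lap q (fun _ => c) y = 0 := by
  unfold Lap
  simp

/-- Minimum principle. -/
theorem min_principle {q : V → V → ℝ} (hq : ∀ a b, 0 ≤ q a b) (hirr : Irr q)
    (S : Finset V) (hS : S ≠ univ) (f : V → ℝ)
    (h1 : ∀ z ∈ S, 0 ≤ Lap q f z) (h2 : ∀ z, z ∉ S → 0 ≤ f z) : ∀ z, 0 ≤ f z := by
  intro z1
  by_contra hz1
  push Not at hz1
  obtain ⟨z0, _, hz0⟩ := exists_min_image univ f ⟨z1, mem_univ z1⟩
  have hneg : f z0 < 0 := lt_of_le_of_lt (hz0 z1 (mem_univ _)) hz1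
  obtain ⟨c, hc⟩ : ∃ c, c ∉ S := by
    by_contra hcon
    push Not at hcon
    exact hS (eq_univ_iff_forall.2 hcon)
  have hA : (univ.filter fun z => f z = f z0) ≠ univ := by
    intro hEq
    have : c ∈ univ.filter fun z => f z = f z0 := by rw [hEq]; exact mem_univ _
    have hc2 := (mem_filter.1 this).2
    have := h2 c hc
    linarith
  obtain ⟨a, ha, b, hb, hab⟩ := hirr _ ⟨z0, by simp⟩ hA
  have ha' : f a = f z0 := (mem_filter.1 ha).2
  have hb' : f z0 < f b := by
    refine lt_of_le_of_ne (hz0 b (mem_univ _)) fun hEq => hb ?_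
    simp [hEq]
  have haS : a ∈ S := by
    by_contra hcon
    have := h2 a hcon
    linarith
  have h3 := h1 a haS
  have h4 : Lap q f a < 0 := by
    unfold Lap
    have h5 : ∑ z, q a z * (f a - f z) < ∑ _z : V, (0 : ℝ) := by
      apply sum_lt_sum
      · intro z _
        have := hz0 z (mem_univ _)
        exact mul_nonpos_of_nonneg_of_nonpos (hq a z) (by linarith)
      · exact ⟨b, mem_univ _, mul_neg_of_pos_of_neg hab (by linarith)⟩
    simpa using h5
  linarith

/-- Uniqueness. -/
theorem uniq {q : V → V → ℝ} (hq : ∀ a b, 0 ≤ q a b) (hirr : Irr q)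
    (S : Finset V) (hS : S ≠ univ) (f : V → ℝ)
    (h1 : ∀ z ∈ S, Lap q f z = 0) (h2 : ∀ z, z ∉ S → f z = 0) : ∀ z, f z = 0 := by
  intro z
  have h3 := min_principle hq hirr S hS f (fun z hz => (h1 z hz).ge) (fun z hz => (h2 z hz).ge) z
  have h4 := min_principle hq hirr S hS (fun x => - f x)
    (fun z hz => by rw [Lap_neg, h1 z hz]; simp) (fun z hz => by rw [h2 z hz]; simp) z
  linarith

/-- The Dirichlet problem is solvable. -/
theorem dirichlet {q : V → V → ℝ} (hq : ∀ a b, 0 ≤ q a b) (hirr : Irr q)
    (S : Finset V) (hS : S ≠ univ) (b : V → ℝ) :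
    ∃ f : V → ℝ, (∀ z ∈ S, Lap q f z = 0) ∧ (∀ z, z ∉ S → f z = b z) := by
  let T : (V → ℝ) →ₗ[ℝ] (V → ℝ) :=
    { toFun := fun f z => if z ∈ S then Lap q f z else f z
      map_add' := by
        intro f g
        ext z
        by_cases hz : z ∈ S
        · simp only [hz, if_true, Pi.add_apply]
          exact Lap_add q f g z
        · simp [hz]
      map_smul' := by
        intro c f
        ext z
        by_cases hz : z ∈ S
        · simp only [hz, if_true, Pi.smul_apply, smul_eq_mul, RingHom.id_apply]
          exact Lap_smul q c f z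
        · simp [hz] }
  have hinj : Function.Injective T := by
    rw [← LinearMap.ker_eq_bot, LinearMap.ker_eq_bot']
    intro f hf
    have hf' : ∀ z, (if z ∈ S then Lap q f z else f z) = 0 := fun z => congrFun hf z
    ext z
    refine uniq hq hirr S hS f ?_ ?_ z
    · intro z hz
      have := hf' z
      rwa [if_pos hz] at this
    · intro z hz
      have := hf' z
      rwa [if_neg hz] at this
  have hsurj : Function.Surjective T := LinearMap.injective_iff_surjective.1 hinj
  obtain ⟨f, hf⟩ := hsurj (fun z => if z ∈ S then 0 else b z)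
  refine ⟨f, ?_, ?_⟩
  · intro z hz
    have := congrFun hf z
    simp only [hz, if_true] at this
    simpa [T, hz] using this
  · intro z hz
    have := congrFun hf z
    simpa [T, hz] using this

theorem genMat_mulVec (q : V → V → ℝ) (v0 : V) (f : V → ℝ) (a : V) :
    ∑ b, genMat q v0 a b * f b = Lap q f a + f v0 := by
  unfold genMat Lap
  simp only [Matrix.of_apply, add_mul, sub_mul, sum_add_distrib, sum_sub_distrib, mul_sub,
    ite_mul, zero_mul, one_mul, sum_ite_eq, mem_univ, if_true, sum_ite_eq']
  rw [sum_mul]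

section Green

variable {q : V → V → ℝ} {v0 : V} {Z : Matrix V V ℝ}

theorem green_col (hZ : genMat q v0 * Z = 1) (w z : V) :
    Lap q (fun x => Z x w) z + Z v0 w = if z = w then 1 else 0 := by
  have h := congrFun (congrFun hZ z) w
  rw [Matrix.mul_apply, genMat_mulVec q v0 (fun x => Z x w) z, Matrix.one_apply] at h
  exact h

theorem green_row_aux (hZ : genMat q v0 * Z = 1) (u : V) (f : V → ℝ) :
    ∑ w, Z u w * (Lap q f w + f v0) = f u := by
  have hZ' : Z * genMat q v0 = 1 := mul_eq_one_comm.1 hZ
  have h1 : ∀ b, ∑ w, Z u w * genMat q v0 w b = if u = b then 1 else 0 := by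
    intro b
    have h := congrFun (congrFun hZ' u) b
    rw [Matrix.mul_apply, Matrix.one_apply] at h
    exact h
  calc ∑ w, Z u w * (Lap q f w + f v0) = ∑ w, Z u w * ∑ b, genMat q v0 w b * f b := by
        refine sum_congr rfl fun w _ => ?_
        rw [genMat_mulVec]
    _ = ∑ w, ∑ b, Z u w * genMat q v0 w b * f b := by
        refine sum_congr rfl fun w _ => ?_
        rw [mul_sum]
        exact sum_congr rfl fun b _ => by ring
    _ = ∑ b, ∑ w, Z u w * genMat q v0 w b * f b := sum_comm
    _ = ∑ b, (if u = b then 1 else 0) * f b := by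
        refine sum_congr rfl fun b _ => ?_
        rw [← sum_mul, h1]
    _ = f u := by simp

theorem green_row_sum (hZ : genMat q v0 * Z = 1) (u : V) : ∑ w, Z u w = 1 := by
  have h := green_row_aux hZ u (fun _ => (1 : ℝ))
  simp only [Lap_const, zero_add, mul_one] at h
  exact h

theorem green_row (hZ : genMat q v0 * Z = 1) (u : V) (f : V → ℝ) :
    ∑ w, Z u w * Lap q f w = f u - f v0 := by
  have h := green_row_aux hZ u f
  have h2 := green_row_sum hZ u
  simp only [mul_add, sum_add_distrib] at h
  rw [← sum_mul, h2] at h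
  linarith

/-- The functions `D(z, w) = Z w w - Z z w`. -/
theorem D_lap (hZ : genMat q v0 * Z = 1) (w z : V) :
    Lap q (fun x => Z w w - Z x w) z = Z v0 w - if z = w then 1 else 0 := by
  have h := green_col hZ w z
  have h2 : Lap q (fun x => Z w w - Z x w) z = - Lap q (fun x => Z x w) z := by
    rw [Lap_sub, Lap_const]
    ring
  rw [h2]
  linarith

theorem pi_pos (hq : ∀ a b, 0 ≤ q a b) (hirr : Irr q) (hZ : genMat q v0 * Z = 1) (w : V) :
    0 < Z v0 w := by
  by_contra hcon
  push Not at hcon
  have hS : (univ.erase w : Finset V) ≠ univ := by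
    intro hE
    have : w ∈ (univ.erase w : Finset V) := by rw [hE]; exact mem_univ _
    simp at this
  have h1 := min_principle hq hirr (univ.erase w) hS (fun x => -(Z w w - Z x w))
    (fun z hz => by
      rw [Lap_neg, D_lap hZ, if_neg (ne_of_mem_erase hz)]
      linarith)
    (fun z hz => by
      have : z = w := by simpa using hz
      rw [this]
      simp)
  have h2 := D_lap hZ w w
  rw [if_pos rfl] at h2
  have h3 : 0 ≤ Lap q (fun x => Z w w - Z x w) w := by
    unfold Lap
    refine sum_nonneg fun z _ => mul_nonneg (hq w z) ?_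
    have := h1 z
    linarith
  linarith

theorem D_nonneg (hq : ∀ a b, 0 ≤ q a b) (hirr : Irr q) (hZ : genMat q v0 * Z = 1) (w z : V) :
    0 ≤ Z w w - Z z w := by
  have hS : (univ.erase w : Finset V) ≠ univ := by
    intro hE
    have : w ∈ (univ.erase w : Finset V) := by rw [hE]; exact mem_univ _
    simp at this
  have hp := pi_pos hq hirr hZ w
  exact min_principle hq hirr (univ.erase w) hS (fun x => (Z w w - Z x w))
    (fun z hz => by
      rw [D_lap hZ, if_neg (ne_of_mem_erase hz)]
      linarith)
    (fun z hz => by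
      have : z = w := by simpa using hz
      rw [this]
      simp) z

theorem D_pos (hq : ∀ a b, 0 ≤ q a b) (hirr : Irr q) (hZ : genMat q v0 * Z = 1) {w z : V}
    (hzw : z ≠ w) : 0 < Z w w - Z z w := by
  have h0 := D_nonneg hq hirr hZ w z
  refine lt_of_le_of_ne h0 fun hE => ?_
  have h1 := D_lap hZ w z
  rw [if_neg hzw, sub_zero] at h1
  have h2 : Lap q (fun x => Z w w - Z x w) z ≤ 0 := by
    unfold Lap
    refine sum_nonpos fun y _ => mul_nonpos_of_nonneg_of_nonpos (hq z y) ?_
    have := D_nonneg hq hirr hZ w y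
    linarith
  have := pi_pos hq hirr hZ w
  linarith

/-- Expected hitting times. -/
noncomputable def hit (Z : Matrix V V ℝ) (v0 z w : V) : ℝ := (Z w w - Z z w) / Z v0 w

theorem hit_self (w : V) : hit Z v0 w w = 0 := by simp [hit]

theorem pi_mul_hit (hq : ∀ a b, 0 ≤ q a b) (hirr : Irr q) (hZ : genMat q v0 * Z = 1) (z w : V) :
    Z v0 w * hit Z v0 z w = Z w w - Z z w := by
  have := pi_pos hq hirr hZ w
  unfold hit
  field_simp

theorem hit_nonneg (hq : ∀ a b, 0 ≤ q a b) (hirr : Irr q) (hZ : genMat q v0 * Z = 1) (z w : V) :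
    0 ≤ hit Z v0 z w :=
  div_nonneg (D_nonneg hq hirr hZ w z) (pi_pos hq hirr hZ w).le

theorem hit_lap (hq : ∀ a b, 0 ≤ q a b) (hirr : Irr q) (hZ : genMat q v0 * Z = 1) {z w : V}
    (hzw : z ≠ w) : Lap q (fun x => hit Z v0 x w) z = 1 := by
  have h1 : Lap q (fun x => hit Z v0 x w) z
      = Lap q (fun x => (Z w w - Z x w) * (Z v0 w)⁻¹) z := by
    congr 1
  rw [h1, Lap_mul_const, D_lap hZ, if_neg hzw, sub_zero]
  exact mul_inv_cancel₀ (pi_pos hq hirr hZ w).ne'

theorem hit_triangle (hq : ∀ a b, 0 ≤ q a b) (hirr : Irr q) (hZ : genMat q v0 * Z = 1)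
    (z u v : V) : hit Z v0 z v ≤ hit Z v0 z u + hit Z v0 u v := by
  have hS : (univ \ {u, v} : Finset V) ≠ univ := by
    intro hE
    have : u ∈ (univ \ {u, v} : Finset V) := by rw [hE]; exact mem_univ _
    simp at this
  have h := min_principle hq hirr (univ \ {u, v}) hS
    (fun x => hit Z v0 x u + hit Z v0 u v - hit Z v0 x v)
    (fun x hx => by
      have hx' : x ≠ u ∧ x ≠ v := by simpa using hx
      rw [Lap_sub, Lap_add, Lap_const, hit_lap hq hirr hZ hx'.1, hit_lap hq hirr hZ hx'.2]
      norm_num)
    (fun x hx => by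
      have hx' : x = u ∨ x = v := by
        by_contra hcon
        exact hx (by simpa using hcon)
      rcases hx' with rfl | rfl
      · rw [hit_self]; simp
      · rw [hit_self]
        have h1 := hit_nonneg hq hirr hZ x u
        have h2 := hit_nonneg hq hirr hZ u x
        linarith) z
  linarith

end Green

/-- The matrix `genMat q v0` has trivial kernel. -/
theorem genMat_ker {q : V → V → ℝ} (hq : ∀ a b, 0 ≤ q a b) (hirr : Irr q) (v0 : V) (f : V → ℝ)
    (hf : ∀ a, Lap q f a + f v0 = 0) : ∀ a, f a = 0 := by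
  have hS : (univ.erase v0 : Finset V) ≠ univ := by
    intro hE
    have : v0 ∈ (univ.erase v0 : Finset V) := by rw [hE]; exact mem_univ _
    simp at this
  -- first `f v0 = 0`
  have key : ∀ g : V → ℝ, (∀ a, Lap q g a + g v0 = 0) → 0 ≤ g v0 := by
    intro g hg
    by_contra hcon
    push Not at hcon
    have h1 := min_principle hq hirr (univ.erase v0) hS (fun x => g x - g v0)
      (fun z _ => by
        rw [Lap_sub, Lap_const]
        have := hg z
        linarith)
      (fun z hz => by
        have : z = v0 := by simpa using hz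
        rw [this]
        simp)
    have h2 : Lap q g v0 ≤ 0 := by
      unfold Lap
      refine sum_nonpos fun y _ => mul_nonpos_of_nonneg_of_nonpos (hq v0 y) ?_
      have := h1 y
      linarith
    have := hg v0
    linarith
  have h1 := key f hf
  have h2 := key (fun x => - f x) (fun a => by
    rw [Lap_neg]
    have := hf a
    linarith)
  have h3 : f v0 = 0 := by linarith
  intro a
  refine uniq hq hirr (univ.erase v0) hS f ?_ ?_ a
  · intro z _
    have := hf z
    linarith
  · intro z hz
    have : z = v0 := by simpa using hz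
    rw [this, h3]

/-- The matrix `genMat q v0` is invertible. -/
theorem genMat_isUnit {q : V → V → ℝ} (hq : ∀ a b, 0 ≤ q a b) (hirr : Irr q) (v0 : V) :
    IsUnit (genMat q v0) := by
  rw [← Matrix.mulVec_injective_iff_isUnit]
  intro f g hfg
  have h1 : ∀ a, Lap q (fun x => f x - g x) a + (f v0 - g v0) = 0 := by
    intro a
    have h2 := congrFun hfg a
    simp only [Matrix.mulVec, dotProduct] at h2
    rw [genMat_mulVec, genMat_mulVec] at h2
    rw [Lap_sub]
    linarith
  ext a
  have := genMat_ker hq hirr v0 (fun x => f x - g x) h1 a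
  linarith

theorem genMat_det_ne_zero {q : V → V → ℝ} (hq : ∀ a b, 0 ≤ q a b) (hirr : Irr q) (v0 : V) :
    (genMat q v0).det ≠ 0 := by
  have h := (Matrix.isUnit_iff_isUnit_det _).1 (genMat_isUnit hq hirr v0)
  exact h.ne_zero

/-- KEY THEOREM. -/
theorem key_theorem [Nontrivial V] {q : V → V → ℝ} (hq : ∀ a b, 0 ≤ q a b) (hirr : Irr q)
    {v0 : V} {Z : Matrix V V ℝ} (hZ : genMat q v0 * Z = 1) :
    ∃ u v : V, u ≠ v ∧ 0 < q u v ∧ ∀ X : Finset V, u ∈ X → v ∉ X →
      1 ≤ ∑ w ∈ X, ∑ z ∈ Xᶜ, q w z * (Z w w - Z z w) + q u v * (Z u u - Z v u) := by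
  obtain ⟨a0, b0, hab0⟩ := exists_pair_ne V
  obtain ⟨⟨u, v⟩, huv, hmin⟩ := exists_min_image
    ((univ : Finset (V × V)).filter fun p => p.1 ≠ p.2) (fun p => hit Z v0 p.1 p.2)
    ⟨(a0, b0), by simp [hab0]⟩
  have huv' : u ≠ v := (mem_filter.1 huv).2
  have hmin' : ∀ a b, a ≠ b → hit Z v0 u v ≤ hit Z v0 a b := fun a b hab =>
    hmin (a, b) (by simp [hab])
  have hnn := hit_nonneg hq hirr hZ
  refine ⟨u, v, huv', ?_, ?_⟩
  · -- `0 < q u v`
    have h1 := hit_lap hq hirr hZ huv'
    unfold Lap at h1
    beta_reduce at h1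
    rw [← add_sum_erase univ _ (mem_univ v)] at h1
    have h2 : ∑ x ∈ univ.erase v, q u x * (hit Z v0 u v - hit Z v0 x v) ≤ 0 :=
      sum_nonpos fun x hx => mul_nonpos_of_nonneg_of_nonpos (hq u x)
        (by have := hmin' x v (ne_of_mem_erase hx); linarith)
    rw [hit_self, sub_zero] at h1
    have h3 : 1 ≤ q u v * hit Z v0 u v := by linarith
    by_contra hcon
    have h4 : q u v = 0 := le_antisymm (not_lt.1 hcon) (hq u v)
    rw [h4, zero_mul] at h3
    linarith
  · intro X huX hvX
    -- `β`
    have hS : (univ \ (insert v X) : Finset V) ≠ univ := by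
      intro hE
      have : v ∈ (univ \ (insert v X) : Finset V) := by rw [hE]; exact mem_univ _
      simp at this
    obtain ⟨β, hβ1, hβ2⟩ := dirichlet hq hirr (univ \ (insert v X)) hS
      (fun z => if z = v then 1 else 0)
    have hβv : β v = 1 := by
      rw [hβ2 v (by simp)]; simp
    have hβX : ∀ z ∈ X, β z = 0 := by
      intro z hz
      rw [hβ2 z (by simp [hz])]
      have : z ≠ v := fun h => hvX (h ▸ hz)
      simp [this]
    have hβ0 : ∀ z, 0 ≤ β z :=
      min_principle hq hirr _ hS β (fun z hz => (hβ1 z hz).ge) (fun z hz => by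
        rw [hβ2 z hz]; split_ifs <;> norm_num)
    have hSmem : ∀ z, z ∈ (univ \ (insert v X) : Finset V) ↔ z ≠ v ∧ z ∉ X := by
      intro z; simp
    have hnotS : ∀ z, z ∉ (univ \ (insert v X) : Finset V) → z = v ∨ z ∈ X := by
      intro z hz
      rw [hSmem] at hz
      tauto
    set h0 := hit Z v0 u v with hh0
    have hpi := pi_pos hq hirr hZ
    have hpm := pi_mul_hit hq hirr hZ
    -- the identity
    have hid : ∑ w, (Z v0 w * h0 + Z u w - Z v w) * Lap q (fun x => 1 - β x) w = 1 := by
      have e1 := green_row hZ v0 (fun x => 1 - β x)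
      have e2 := green_row hZ u (fun x => 1 - β x)
      have e3 := green_row hZ v (fun x => 1 - β x)
      have e4 : ∑ w, (Z v0 w * h0 + Z u w - Z v w) * Lap q (fun x => 1 - β x) w
          = h0 * ∑ w, Z v0 w * Lap q (fun x => 1 - β x) w
            + ∑ w, Z u w * Lap q (fun x => 1 - β x) w
            - ∑ w, Z v w * Lap q (fun x => 1 - β x) w := by
        rw [mul_sum, ← sum_add_distrib, ← sum_sub_distrib]
        exact sum_congr rfl fun w _ => by ring
      rw [e4, e1, e2, e3, hβv, hβX u huX]
      ring
    have hgv : Z v0 v * h0 + Z u v - Z v v = 0 := by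
      have := hpm u v
      rw [← hh0] at this
      linarith
    -- evaluate the identity
    have hev : ∑ w, (Z v0 w * h0 + Z u w - Z v w) * Lap q (fun x => 1 - β x) w
        = ∑ w ∈ X, ∑ z ∈ Xᶜ, q w z * ((Z v0 w * h0 + Z u w - Z v w) * β z) := by
      rw [← sum_subset (subset_univ X)]
      · refine sum_congr rfl fun w hw => ?_
        unfold Lap
        beta_reduce
        rw [← sum_subset (subset_univ Xᶜ), mul_sum]
        · refine sum_congr rfl fun z _ => ?_
          rw [hβX w hw]
          ring
        · intro z _ hz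
          have hz' : z ∈ X := by simpa using hz
          rw [hβX w hw, hβX z hz']
          ring
      · intro w _ hw
        by_cases hwv : w = v
        · rw [hwv, hgv, zero_mul]
        · rw [Lap_sub, Lap_const, hβ1 w ((hSmem w).2 ⟨hwv, hw⟩)]
          ring
    rw [hev] at hid
    -- the bounds
    have hb1 : ∀ w ∈ X, w ≠ u → ∀ z, (Z v0 w * h0 + Z u w - Z v w) * β z ≤ Z w w - Z z w := by
      intro w hw hwu z
      have hwv : v ≠ w := fun h => hvX (h ▸ hw)
      have c1 : Z v0 w * h0 + Z u w - Z v w ≤ Z w w - Z v w := by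
        have c2 := hpm u w
        have c3 := mul_le_mul_of_nonneg_left (hmin' u w (Ne.symm hwu)) (hpi w).le
        linarith
      have c4 := min_principle hq hirr _ hS (fun x => (Z w w - Z x w) - β x * (Z w w - Z v w))
        (fun x hx => by
          have hxw : x ≠ w := fun h => ((hSmem x).1 hx).2 (h ▸ hw)
          rw [Lap_sub, Lap_mul_const, D_lap hZ, if_neg hxw, hβ1 x hx]
          have := hpi w
          linarith)
        (fun x hx => by
          rcases hnotS x hx with rfl | hxX
          · rw [hβv]; simp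
          · rw [hβX x hxX]
            have := D_nonneg hq hirr hZ w x
            linarith) z
      have c5 := mul_le_mul_of_nonneg_right c1 (hβ0 z)
      linarith
    have hb2 : ∀ z, z ≠ v → (Z v0 u * h0 + Z u u - Z v u) * β z ≤ Z u u - Z z u := by
      intro z hzv
      have c1 := min_principle hq hirr _ hS
        (fun x => hit Z v0 x u - β x * hit Z v0 v u - (hit Z v0 x v - (1 - β x) * h0))
        (fun x hx => by
          have hx' := (hSmem x).1 hx
          have hxu : x ≠ u := fun h => hx'.2 (h ▸ huX)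
          rw [Lap_sub, Lap_sub, Lap_sub, Lap_mul_const, Lap_mul_const, Lap_sub, Lap_const,
            hit_lap hq hirr hZ hxu, hit_lap hq hirr hZ hx'.1, hβ1 x hx]
          norm_num)
        (fun x hx => by
          rcases hnotS x hx with rfl | hxX
          · rw [hβv, hit_self]; simp
          · rw [hβX x hxX]
            have := hit_triangle hq hirr hZ x u v
            rw [← hh0] at this
            linarith) z
      have c2 := hmin' z v hzv
      have c3 : β z * (hit Z v0 v u + h0) ≤ hit Z v0 z u := by
        have : β z * (hit Z v0 v u + h0) = β z * hit Z v0 v u + β z * h0 := by ring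
        linarith
      have c4 := mul_le_mul_of_nonneg_left c3 (hpi u).le
      rw [hpm z u] at c4
      have c5 := hpm v u
      have c6 : Z v0 u * (β z * (hit Z v0 v u + h0))
          = (Z v0 u * h0 + Z v0 u * hit Z v0 v u) * β z := by ring
      rw [c6, c5] at c4
      linarith
    have hb3 : (Z v0 u * h0 + Z u u - Z v u) * β v ≤ Z u u - Z v u + (Z u u - Z v u) := by
      have c1 := mul_le_mul_of_nonneg_left (hmin' v u huv'.symm) (hpi u).le
      have c2 := hpm v u
      rw [hβv]
      linarith
    -- conclusion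
    have hsum : ∑ w ∈ X, ∑ z ∈ Xᶜ, q w z * ((Z v0 w * h0 + Z u w - Z v w) * β z)
        ≤ ∑ w ∈ X, ∑ z ∈ Xᶜ, (q w z * (Z w w - Z z w)
          + if w = u then (if z = v then q u v * (Z u u - Z v u) else 0) else 0) := by
      refine sum_le_sum fun w hw => sum_le_sum fun z hz => ?_
      by_cases hwu : w = u
      · subst hwu
        rw [if_pos rfl]
        by_cases hzv : z = v
        · subst hzv
          rw [if_pos rfl, ← mul_add]
          exact mul_le_mul_of_nonneg_left hb3 (hq _ _)
        · rw [if_neg hzv, add_zero]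
          exact mul_le_mul_of_nonneg_left (hb2 z hzv) (hq _ _)
      · rw [if_neg hwu, add_zero]
        exact mul_le_mul_of_nonneg_left (hb1 w hw hwu z) (hq _ _)
    rw [hid] at hsum
    refine hsum.trans (le_of_eq ?_)
    have e1 : ∀ w ∈ X, ∑ z ∈ Xᶜ, (q w z * (Z w w - Z z w)
          + if w = u then (if z = v then q u v * (Z u u - Z v u) else 0) else 0)
        = ∑ z ∈ Xᶜ, q w z * (Z w w - Z z w)
          + if w = u then q u v * (Z u u - Z v u) else 0 := by
      intro w _
      rw [sum_add_distrib]
      congr 1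
      by_cases hwu : w = u
      · simp [hwu, hvX]
      · simp [hwu]
    rw [sum_congr rfl e1, sum_add_distrib]
    congr 1
    simp [huX]

end MP_542d22_q2
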